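import Mathlib
import Pool.Agent.V8H37.Rig.Random

/-!
# Rigid matrices over any field from `n ^ (1 + δ)` random numbers

Let `X` be a set of at least `n ^ 4` elements of a field (for example the integers `1, …, n ^ 4`
in the real or complex numbers). Among the block diagonal matrices of order `n = m b` with `m`
blocks of order `b` and with entries in `X`, all but `2 ^ n |X| ^ (5 b r + 7 s)` of the
`|X| ^ (n b)` are `(r, s)`-rigid.
-/

namespace Pool.Agent.Results.MP_0775d3_lc.FewRandomIntegers

open Pool.Agent.V8H37.Rig

/-- `A` is `(r, s)`-rigid: it is not the sum of a matrix of rank at most `r` and a matrix with at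
most `s` nonzero entries. -/
def Rigid {F V : Type*} [Field F] [Fintype V] (A : Matrix V V F) (r s : ℕ) : Prop :=
  ∀ L S : Matrix V V F, A = L + S → L.rank ≤ r → s < {x : V × V | S x.1 x.2 ≠ 0}.ncard

theorem result (F : Type) [Field F] (X : Finset F) (m b r s : ℕ)
    (hn : 2 ≤ m * b) (hX : (m * b) ^ 4 ≤ X.card) (hr : 4 * r ≤ m * b) :
    {D : Fin m → Matrix (Fin b) (Fin b) F | (∀ i u v, D i u v ∈ X)}.ncard =
      X.card ^ (m * b * b) ∧
    {D : Fin m → Matrix (Fin b) (Fin b) F | (∀ i u v, D i u v ∈ X) ∧
      ¬ Rigid (Matrix.blockDiagonal D) r s}.ncard ≤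
      2 ^ (m * b) * X.card ^ (5 * b * r + 7 * s) := by
  classical
  constructor
  · change {D : Fin m → Fin b → Fin b → F | ∀ i u v, D i u v ∈ X}.ncard = _
    have h1 : {D : Fin m → Fin b → Fin b → F | ∀ i u v, D i u v ∈ X} =
        ((Fintype.piFinset fun _ : Fin m => Fintype.piFinset fun _ : Fin b =>
          Fintype.piFinset fun _ : Fin b => X : Finset (Fin m → Fin b → Fin b → F)) :
          Set (Fin m → Fin b → Fin b → F)) := by
      ext D
      simp only [Finset.mem_coe, Fintype.mem_piFinset, Set.mem_ofPred_eq]
    rw [h1, Set.ncard_coe_finset]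
    simp only [Fintype.card_piFinset, Finset.prod_const, Finset.card_univ, Fintype.card_fin]
    rw [← pow_mul, ← pow_mul]
    congr 1
    ring
  · have hcard : {D : Fin m → Matrix (Fin b) (Fin b) F | (∀ i u v, D i u v ∈ X) ∧
        ¬ Rigid (Matrix.blockDiagonal D) r s}.ncard ≤
        (badX (fun v : Fin b × Fin m => v.2) X r s).card := by
      rw [← Set.ncard_coe_finset]
      apply Set.ncard_le_ncard_of_injOn
        (fun (D : Fin m → Matrix (Fin b) (Fin b) F) (x y : Fin b × Fin m) =>
          Matrix.blockDiagonal D x y)
      · rintro D ⟨hDX, hD⟩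
        simp only [Rigid, not_forall, not_lt] at hD
        obtain ⟨L, S, h1, h2, h3⟩ := hD
        rw [Finset.mem_coe, badX, Finset.mem_filter]
        refine ⟨mem_univX.mpr fun u v => ⟨fun huv => ?_, fun huv => ?_⟩, L, S, h1, h2, ?_⟩
        · rw [Matrix.blockDiagonal_apply, if_pos huv]
          exact hDX _ _ _
        · rw [Matrix.blockDiagonal_apply, if_neg huv]
        · refine le_trans (le_of_eq ?_) h3
          rw [← Set.ncard_coe_finset]
          congr 1
          ext x
          simp [nonzeros]
      · intro D _ D' _ h
        exact Matrix.blockDiagonal_injective h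
    have hblock : ∀ i, (block (fun v : Fin b × Fin m => v.2) i).card ≤ b := by
      intro i
      have : (block (fun v : Fin b × Fin m => v.2) i) =
          (Finset.univ : Finset (Fin b)).image fun a => (a, i) := by
        ext ⟨a, j⟩
        simp only [block, Finset.mem_filter, Finset.mem_univ, true_and, Finset.mem_image,
          Prod.mk.injEq, exists_eq_left]
        exact eq_comm
      rw [this]
      refine Finset.card_image_le.trans ?_
      simp
    have hc : Fintype.card (Fin b × Fin m) = m * b := by
      rw [Fintype.card_prod, Fintype.card_fin, Fintype.card_fin, mul_comm]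
    have h1 := card_badX_le (fun v : Fin b × Fin m => v.2) X (r := r) (s := s) hblock
      (by rw [hc]; exact hn) (by rw [hc]; exact hr) (by rw [hc]; exact hX)
    rw [hc] at h1
    exact hcard.trans h1

end Pool.Agent.Results.MP_0775d3_lc.FewRandomIntegers
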