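import Mathlib
import Pool.Agent.V8H37.Rig.Kron

/-!
# Few layers of Kronecker products and sparse matrices never give a rigid matrix

Let `N = q ^ n`. Matrices of order `N` that are products of at most `n ^ (1/2 - κ)` Kronecker
products of arbitrary matrices of order `q`, interleaved with arbitrary sparse matrices (for
example arbitrary diagonal and permutation matrices), are sums of a matrix of rank
`N exp (- n ^ κ / 17)` and a matrix with at most `N ^ δ` nonzero entries in each row and column.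
-/

namespace Pool.Agent.Results.MP_0775d3_lc.LayeredKronecker

open Pool.Agent.V8H37.Rig Filter

/-- `log n + C ≤ c n ^ κ` for large `n`. -/
theorem eventually_log_add_le (κ c C : ℝ) (hκ : 0 < κ) (hc : 0 < c) :
    ∀ᶠ n : ℕ in atTop, Real.log n + C ≤ c * (n : ℝ) ^ κ := by
  have h1 := (isLittleO_log_rpow_atTop hκ).bound (show 0 < c / 2 by positivity)
  have h2 : ∀ᶠ x : ℝ in atTop, C ≤ c / 2 * x ^ κ := by
    have := (tendsto_rpow_atTop hκ).const_mul_atTop (show 0 < c / 2 by positivity)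
    exact this.eventually_ge_atTop C
  have h3 : ∀ᶠ x : ℝ in atTop, Real.log x + C ≤ c * x ^ κ := by
    filter_upwards [h1, h2, eventually_ge_atTop (1 : ℝ)] with x hx1 hx2 hx3
    rw [Real.norm_of_nonneg (Real.log_nonneg hx3),
      Real.norm_of_nonneg (Real.rpow_nonneg (by linarith) κ)] at hx1
    linarith
  exact tendsto_natCast_atTop_atTop.eventually h3

theorem result (q : ℕ) (hq : 2 ≤ q) (κ δ : ℝ) (hκ : 0 < κ) (hδ : 0 < δ) :
    ∃ n₀ : ℕ, ∀ n : ℕ, n₀ ≤ n → ∀ m g : ℕ, (m : ℝ) ≤ (n : ℝ) ^ (1 / 2 - κ) →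
      (g : ℝ) ^ (m + 1) ≤ ((q : ℝ) ^ n) ^ (δ / 2) →
      ∀ (F : Type) [Field F] (A : Fin m → Fin n → Matrix (Fin q) (Fin q) F)
        (G : Fin m → Matrix (Fin n → Fin q) (Fin n → Fin q) F)
        (H : Matrix (Fin n → Fin q) (Fin n → Fin q) F),
        (∀ l, Sparse g (G l)) → Sparse g H →
        ∃ R S : Matrix (Fin n → Fin q) (Fin n → Fin q) F,
          (List.ofFn fun l => G l * kron (A l)).prod * H = R + S ∧
          (R.rank : ℝ) ≤ (q : ℝ) ^ n * Real.exp (-((n : ℝ) ^ κ / 17)) ∧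
          (∀ x, ({y | S x y ≠ 0}.ncard : ℝ) ≤ ((q : ℝ) ^ n) ^ δ) ∧
          ∀ y, ({x | S x y ≠ 0}.ncard : ℝ) ≤ ((q : ℝ) ^ n) ^ δ := by
  have hq0 : (0 : ℝ) < q := by exact_mod_cast (by omega : 0 < q)
  have hq1 : (1 : ℝ) < q := by exact_mod_cast (by omega : 1 < q)
  have hlq : 0 < Real.log q := Real.log_pos hq1
  have ev1 := eventually_log_add_le κ (1 / 272) (Real.log (8 * q)) hκ (by norm_num)
  have ev2 := eventually_log_add_le (κ / 2) (δ * Real.log q / (16 * q)) (Real.log (q + 1))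
    (by positivity) (by positivity)
  obtain ⟨n₁, hn₁⟩ := eventually_atTop.mp (ev1.and ev2)
  refine ⟨max n₁ 1, fun n hn m g hm hg F _ A G H hG hH => ?_⟩
  obtain ⟨e1, e2⟩ := hn₁ n ((le_max_left _ _).trans hn)
  have hn1 : 1 ≤ n := (le_max_right _ _).trans hn
  have hnR : (1 : ℝ) ≤ n := by exact_mod_cast hn1
  have hn0 : (0 : ℝ) < n := by linarith
  set t : ℕ := ⌈(n : ℝ) ^ (1 / 2 + κ / 2)⌉₊ with ht
  have ht1 : (n : ℝ) ^ (1 / 2 + κ / 2) ≤ t := Nat.le_ceil _
  have hpow1 : (1 : ℝ) ≤ (n : ℝ) ^ (1 / 2 + κ / 2) := Real.one_le_rpow hnR (by positivity)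
  have ht2 : (t : ℝ) ≤ 2 * (n : ℝ) ^ (1 / 2 + κ / 2) := by
    have := (Nat.ceil_lt_add_one (show (0 : ℝ) ≤ (n : ℝ) ^ (1 / 2 + κ / 2) by positivity)).le
    linarith
  obtain ⟨R, S, hRS, hR, hS⟩ := dec_layered A G H hG hH t
  have hmn : (m : ℝ) ≤ n := by
    refine hm.trans ?_
    calc (n : ℝ) ^ (1 / 2 - κ) ≤ (n : ℝ) ^ (1 : ℝ) :=
          Real.rpow_le_rpow_of_exponent_le hnR (by linarith)
      _ = n := Real.rpow_one _
  -- the sparsity
  have hsp : ((g ^ (m + 1) * (((n * q + 1) ^ t) ^ (4 * q)) ^ m : ℕ) : ℝ) ≤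
      ((q : ℝ) ^ n) ^ δ := by
    push_cast
    have hqn : (0 : ℝ) < (q : ℝ) ^ n := by positivity
    have h1 : ((q : ℝ) ^ n) ^ δ = ((q : ℝ) ^ n) ^ (δ / 2) * ((q : ℝ) ^ n) ^ (δ / 2) := by
      rw [← Real.rpow_add hqn]; congr 1; ring
    rw [h1]
    apply mul_le_mul hg _ (by positivity) (by positivity)
    have hbase : (0 : ℝ) < (n : ℝ) * q + 1 := by positivity
    rw [← pow_mul, ← pow_mul]
    have h2 : ((n : ℝ) * q + 1) ^ (t * (4 * q * m)) =
        Real.exp ((t * (4 * q * m) : ℕ) * Real.log ((n : ℝ) * q + 1)) := by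
      rw [Real.exp_nat_mul, Real.exp_log hbase]
    have h3 : ((q : ℝ) ^ n) ^ (δ / 2) = Real.exp ((n : ℝ) * Real.log q * (δ / 2)) := by
      rw [Real.rpow_def_of_pos hqn, Real.log_pow]
    rw [h2, h3]
    apply Real.exp_le_exp.mpr
    push_cast
    have h4 : Real.log ((n : ℝ) * q + 1) ≤ δ * Real.log q / (16 * q) * (n : ℝ) ^ (κ / 2) := by
      refine le_trans ?_ e2
      rw [← Real.log_mul (by positivity) (by positivity)]
      apply Real.log_le_log hbase
      nlinarith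
    have h5 : (t : ℝ) * m ≤ 2 * (n : ℝ) ^ (1 - κ / 2) := by
      calc (t : ℝ) * m ≤ (2 * (n : ℝ) ^ (1 / 2 + κ / 2)) * (n : ℝ) ^ (1 / 2 - κ) :=
            mul_le_mul ht2 hm (Nat.cast_nonneg m) (by positivity)
        _ = 2 * (n : ℝ) ^ (1 - κ / 2) := by
            rw [mul_assoc, ← Real.rpow_add hn0]
            congr 2
            ring
    have hlog0 : 0 ≤ Real.log ((n : ℝ) * q + 1) := Real.log_nonneg (by nlinarith)
    calc (t : ℝ) * (4 * q * m) * Real.log ((n : ℝ) * q + 1)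
        = 4 * q * (t * m) * Real.log ((n : ℝ) * q + 1) := by ring
      _ ≤ 4 * q * (2 * (n : ℝ) ^ (1 - κ / 2)) *
          (δ * Real.log q / (16 * q) * (n : ℝ) ^ (κ / 2)) := by
          apply mul_le_mul _ h4 hlog0 (by positivity)
          exact mul_le_mul_of_nonneg_left h5 (by positivity)
      _ = ((n : ℝ) ^ (1 - κ / 2) * (n : ℝ) ^ (κ / 2)) * Real.log q * (δ / 2) := by
          field_simp
          ring
      _ = (n : ℝ) * Real.log q * (δ / 2) := by
          rw [← Real.rpow_add hn0]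
          have : (1 - κ / 2 + κ / 2) = 1 := by ring
          rw [this, Real.rpow_one]
  refine ⟨R, S, hRS, ?_, fun x => ?_, fun y => ?_⟩
  · refine hR.trans ?_
    have h1 : (n : ℝ) ^ κ / 16 ≤ (t : ℝ) ^ 2 / (16 * n) := by
      rw [div_le_div_iff₀ (by norm_num) (by positivity)]
      have h2 : ((n : ℝ) ^ (1 / 2 + κ / 2)) ^ 2 ≤ (t : ℝ) ^ 2 :=
        pow_le_pow_left₀ (by positivity) ht1 2
      have h3 : ((n : ℝ) ^ (1 / 2 + κ / 2)) ^ 2 = (n : ℝ) ^ κ * n := by
        rw [← Real.rpow_natCast, ← Real.rpow_mul hn0.le]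
        have : ((1 / 2 + κ / 2) * ((2 : ℕ) : ℝ)) = κ + 1 := by push_cast; ring
        rw [this, Real.rpow_add hn0, Real.rpow_one]
      rw [h3] at h2
      linarith
    have h2 : Real.exp (-((t : ℝ) ^ 2 / (16 * n))) ≤ Real.exp (-((n : ℝ) ^ κ / 16)) :=
      Real.exp_le_exp.mpr (by linarith)
    have h3 : 8 * (q : ℝ) * n ≤ Real.exp ((n : ℝ) ^ κ / 272) := by
      rw [← Real.log_le_iff_le_exp (by positivity), Real.log_mul (by positivity) hn0.ne']
      linarith
    calc (m : ℝ) * (((4 * q : ℕ) : ℝ) * (2 * (q : ℝ) ^ n *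
          Real.exp (-((t : ℝ) ^ 2 / (16 * n)))))
        = (8 * q * m) * ((q : ℝ) ^ n * Real.exp (-((t : ℝ) ^ 2 / (16 * n)))) := by
          push_cast; ring
      _ ≤ Real.exp ((n : ℝ) ^ κ / 272) * ((q : ℝ) ^ n * Real.exp (-((n : ℝ) ^ κ / 16))) := by
          apply mul_le_mul _ _ (by positivity) (by positivity)
          · refine le_trans ?_ h3
            exact mul_le_mul_of_nonneg_left hmn (by positivity)
          · exact mul_le_mul_of_nonneg_left h2 (by positivity)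
      _ = (q : ℝ) ^ n * (Real.exp ((n : ℝ) ^ κ / 272) * Real.exp (-((n : ℝ) ^ κ / 16))) := by
          ring
      _ = (q : ℝ) ^ n * Real.exp (-((n : ℝ) ^ κ / 17)) := by
          rw [← Real.exp_add]
          congr 2
          ring
  · refine le_trans ?_ hsp
    exact_mod_cast hS.1 x
  · refine le_trans ?_ hsp
    exact_mod_cast hS.2 y

end Pool.Agent.Results.MP_0775d3_lc.LayeredKronecker
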