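import Pool.Agent.V8H60.Rig.Main

/-!
# Explicit matrices of near-maximal and of maximal rigidity

Let `q` be an injective map from the positions of an `n × n` matrix to the primes, and let
`A i j = q (i, j) ^ (1 / D)` (the positive real root of order `D ≥ 2`).  Then `A` is
`(r, s)`-rigid over `ℂ` for all `r ≤ n` and all `s < (n - r) ^ 2 - 2 n ^ 2 / log D`.

* With `D = n + 2` and the first `n ^ 2` primes the family is explicit in the sense of the problem
  (each entry is given by the list of all coefficients of its minimal polynomial and by an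
  isolating interval, and these data are computed from `n` in unary by a Turing machine in
  polynomial time), and it is `(r, (n - r) ^ 2 - ε n ^ 2)`-rigid for every `ε > 0`, all `r ≤ n`
  and all large `n`.
* With `D = 2 ^ (3 n ^ 2 + 1)` the rigidity is maximal, `(r, s)`-rigid for all `n`, all `r ≤ n` and
  all `s < (n - r) ^ 2`, and the family is explicit when the minimal polynomials `X ^ D - p` are
  written as sparse polynomials with exponents in binary.

`Rigid`, `Explicit`, `SparselyExplicit` and the notions they use are defined in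
`Pool.Agent.V8H60.Rig.Defs`.
-/

set_option autoImplicit false

namespace Pool.Agent.Results.MP_0775d3_lc.RadicalMaximalRigidity

open Pool.Agent.V8H60.Rig

theorem result :
    -- all orders `D`, all choices of the primes
    (∀ (n D r : ℕ) (q : Fin n × Fin n → ℕ), 2 ≤ D → r ≤ n → (∀ e, (q e).Prime) →
      Function.Injective q → ∀ s : ℕ,
        (s : ℝ) < ((n : ℝ) - r) ^ 2 - 2 * (n : ℝ) ^ 2 / Real.log D →
        Rigid ((Matrix.of fun i j => (q (i, j) : ℝ) ^ (D : ℝ)⁻¹).map (algebraMap ℝ ℂ)) r s) ∧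
    -- an explicit family of near-maximal rigidity
    (∃ A : (n : ℕ) → Matrix (Fin n) (Fin n) ℝ, Explicit A ∧
      (∀ ε : ℝ, 0 < ε → ∃ N : ℕ, ∀ n ≥ N, ∀ r ≤ n, ∀ s : ℕ,
        (s : ℝ) ≤ ((n : ℝ) - r) ^ 2 - ε * (n : ℝ) ^ 2 →
          Rigid (A n) r s ∧ Rigid ((A n).map (algebraMap ℝ ℂ)) r s) ∧
      (∀ ε δ : ℝ, 0 < ε → ε < 1 → 0 < δ → δ < 1 → ∃ N : ℕ, ∀ n ≥ N, ∀ r s : ℕ,
        (r : ℝ) ≤ ε * n → (s : ℝ) ≤ (n : ℝ) ^ (1 + δ) →
          Rigid (A n) r s ∧ Rigid ((A n).map (algebraMap ℝ ℂ)) r s)) ∧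
    -- a sparsely explicit family of maximal rigidity
    (∃ A : (n : ℕ) → Matrix (Fin n) (Fin n) ℝ, SparselyExplicit A ∧
      ∀ n r s : ℕ, r ≤ n → s < (n - r) ^ 2 →
        Rigid (A n) r s ∧ Rigid ((A n).map (algebraMap ℝ ℂ)) r s) := by
  refine ⟨fun n D r q hD hr hq hinj s hs => rigid_roots q hD hr hq hinj hs,
    ⟨AD, explicit_AD, fun ε hε => ?_, fun ε δ _ hε1 _ hδ1 => rigid_Q ε δ hε1 hδ1⟩,
    ⟨AS, explicit_AS, fun n r s hr hs =>
      ⟨rigid_of_complex hr (rigid_AS hr hs), rigid_AS hr hs⟩⟩⟩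
  obtain ⟨N, hN⟩ := rigid_AD ε hε
  exact ⟨N, fun n hn r hr s hs => ⟨rigid_of_complex hr (hN n hn r hr s hs), hN n hn r hr s hs⟩⟩

end Pool.Agent.Results.MP_0775d3_lc.RadicalMaximalRigidity
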