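import Mathlib
import Pool.Agent.V8H37.Rig.Explicit

/-!
# Sparse rigid matrices with roots of 2 as entries

Block diagonal matrices of order `n` with blocks of order `b` and with the entries `2 ^ (1 / p)`
in the blocks, for pairwise coprime `p > n ^ 4`, are `(r, s)`-rigid over the complex numbers if
`4 b r + 5 s < n b`.
-/

namespace Pool.Agent.Results.MP_0775d3_lc.SparseRoots

open Pool.Agent.V8H37.Rig

/-- `A` is `(r, s)`-rigid: it is not the sum of a matrix of rank at most `r` and a matrix with at
most `s` nonzero entries. -/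
def Rigid {F V : Type*} [Field F] [Fintype V] (A : Matrix V V F) (r s : ℕ) : Prop :=
  ∀ L S : Matrix V V F, A = L + S → L.rank ≤ r → s < {x : V × V | S x.1 x.2 ≠ 0}.ncard

/-- The matrix with the entries `2 ^ (1 / p u v)` at the pairs in the same class of the partition
`β` and `0` elsewhere. -/
noncomputable def rootMatrix {n : ℕ} (β : Fin n → Fin n) (p : Fin n → Fin n → ℕ) :
    Matrix (Fin n) (Fin n) ℂ :=
  Matrix.of fun u v => if β u = β v then (((2 : ℝ) ^ (1 / (p u v : ℝ)) : ℝ) : ℂ) else 0

theorem result (n b r s : ℕ) (β : Fin n → Fin n) (hβ : ∀ i, {v | β v = i}.ncard ≤ b)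
    (p : Fin n → Fin n → ℕ) (hp : ∀ u v, β u = β v → n ^ 4 < p u v)
    (hcop : ∀ u v u' v', β u = β v → β u' = β v' → (u, v) ≠ (u', v') →
      (p u v).Coprime (p u' v'))
    (hrs : 4 * b * r + 5 * s < {x : Fin n × Fin n | β x.1 = β x.2}.ncard) :
    Rigid (rootMatrix β p) r s := by
  classical
  intro L S hLS hr
  by_contra hs
  push Not at hs
  -- basic data
  set T : Finset (Fin n × Fin n) := Finset.univ.filter fun x => S x.1 x.2 ≠ 0 with hT
  have hTs : T.card ≤ s := by
    refine le_trans (le_of_eq ?_) hs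
    rw [← Set.ncard_coe_finset]
    congr 1
    ext x
    simp [hT]
  have hblock : ∀ i, (block β i).card ≤ b := by
    intro i
    refine le_trans (le_of_eq ?_) (hβ i)
    rw [← Set.ncard_coe_finset]
    congr 1
    ext x
    simp [block]
  set N0 : Finset (Fin n × Fin n) := Finset.univ.filter fun x => β x.1 = β x.2 with hN0
  have hN0card : {x : Fin n × Fin n | β x.1 = β x.2}.ncard = N0.card := by
    rw [← Set.ncard_coe_finset]
    congr 1
    ext x
    simp [hN0]
  rw [hN0card] at hrs
  have hLval : ∀ u v, (u, v) ∉ T → L u v = rootMatrix β p u v := by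
    intro u v huv
    have h1 : S u v = 0 := by
      by_contra h
      exact huv (by simp [hT, h])
    rw [hLS, Matrix.add_apply, h1, add_zero]
  have hLsupp : ∀ u v, v ∉ allowed β T u → L u v = 0 := by
    intro u v hv
    simp only [allowed, Finset.mem_filter, Finset.mem_univ, true_and, not_or] at hv
    rw [hLval u v hv.2, rootMatrix, Matrix.of_apply, if_neg fun h => hv.1 h.symm]
  obtain ⟨I, J, hI, hJ, hfit⟩ := exists_fits β T L hblock hr hTs hLsupp
  set M : Finset (Fin n × Fin n) := N0 \ T with hM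
  set Q : ℕ := n ^ 4 + 1 with hQ
  have hMmem : ∀ k : M, β k.1.1 = β k.1.2 ∧ k.1 ∉ T := by
    intro k
    have := Finset.mem_sdiff.mp k.2
    exact ⟨(Finset.mem_filter.mp this.1).2, this.2⟩
  have hind : LinearIndependent ℚ fun e : M → Fin Q =>
      ∏ k : M, (L k.1.1 k.1.2) ^ (e k : ℕ) := by
    have h1 := linearIndependent_roots (fun k : M => p k.1.1 k.1.2) Q
      (fun k => hp _ _ (hMmem k).1) (fun k => (Nat.zero_le _).trans_lt (hp _ _ (hMmem k).1))
      (fun k k' hkk => hcop _ _ _ _ (hMmem k).1 (hMmem k').1 fun h => hkk (Subtype.ext h))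
    have h2 : (fun e : M → Fin Q => ∏ k : M, (L k.1.1 k.1.2) ^ (e k : ℕ)) =
        fun e : M → Fin Q => ∏ k : M, rt (p k.1.1 k.1.2) ^ (e k : ℕ) := by
      funext e
      refine Finset.prod_congr rfl fun k _ => ?_
      rw [hLval _ _ (hMmem k).2, rootMatrix, Matrix.of_apply, if_pos (hMmem k).1]
      rfl
    rw [h2]
    exact h1
  have hkey := key_ineq β T L I J hfit M Q (Nat.succ_pos _) hind
  -- numerical estimates
  have hn : 0 < n := by
    rcases Nat.eq_zero_or_pos n with h | h
    · subst h
      have : N0.card = 0 := by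
        rw [Finset.card_eq_zero]
        exact Finset.eq_empty_of_isEmpty _
      omega
    · exact h
  have hN0le : N0.card ≤ n * b := by
    have h1 : N0.card = ∑ u, (block β (β u)).card := by
      rw [hN0, ← Finset.card_sigma]
      apply Finset.card_bij (fun x _ => ⟨x.1, x.2⟩)
      · intro x hx
        rw [Finset.mem_filter] at hx
        rw [Finset.mem_sigma]
        exact ⟨Finset.mem_univ _, by simp [block, hx.2]⟩
      · intro a _ b _ hab
        simp only [Sigma.mk.injEq] at hab
        exact Prod.ext hab.1 (eq_of_heq hab.2)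
      · rintro ⟨u, v⟩ hx
        rw [Finset.mem_sigma] at hx
        refine ⟨(u, v), ?_, rfl⟩
        have := hx.2
        simp only [block, Finset.mem_filter, Finset.mem_univ, true_and] at this
        simp [this]
    rw [h1]
    refine (Finset.sum_le_sum fun u _ => hblock (β u)).trans ?_
    simp
  have hr4 : 4 * r ≤ n := by
    have h1 : 4 * b * r < n * b := by omega
    by_contra hcon
    push Not at hcon
    have h2 : n * b ≤ 4 * r * b := Nat.mul_le_mul_right _ hcon.le
    have h3 : 4 * r * b = 4 * b * r := by ring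
    omega
  have hMn : M.card ≤ n ^ 2 := by
    refine (Finset.card_le_card (Finset.subset_univ _)).trans ?_
    rw [Finset.card_univ, Fintype.card_prod, Fintype.card_fin, sq]
  have hEle : M.card * ((Q - 1) * (I.card + 2)) + 1 ≤ Q ^ 2 := by
    have h1 : M.card * ((Q - 1) * (I.card + 2)) ≤ n ^ 2 * (n ^ 4 * (r + 2)) := by
      apply Nat.mul_le_mul hMn
      apply Nat.mul_le_mul
      · omega
      · omega
    have h2 : 4 * (n ^ 2 * (n ^ 4 * (r + 2))) ≤ n ^ 2 * (n ^ 4 * (n + 8)) := by
      calc 4 * (n ^ 2 * (n ^ 4 * (r + 2))) = n ^ 2 * (n ^ 4 * (4 * (r + 2))) := by ring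
        _ ≤ n ^ 2 * (n ^ 4 * (n + 8)) := by
          apply Nat.mul_le_mul_left
          apply Nat.mul_le_mul_left
          omega
    have h3 : n ^ 2 * (n ^ 4 * (n + 8)) ≤ 4 * (n ^ 8 + 2 * n ^ 4) := by
      have h5 : n ^ 2 * (n + 8) ≤ 4 * (n ^ 4 + 2) := by
        rcases Nat.lt_or_ge n 2 with h | h
        · interval_cases n
          norm_num
        · have h6 : n ^ 2 * (n + 8) ≤ n ^ 2 * (4 * n ^ 2) := by
            apply Nat.mul_le_mul_left
            nlinarith
          calc n ^ 2 * (n + 8) ≤ n ^ 2 * (4 * n ^ 2) := h6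
            _ = 4 * n ^ 4 := by ring
            _ ≤ 4 * (n ^ 4 + 2) := by omega
      calc n ^ 2 * (n ^ 4 * (n + 8)) = n ^ 4 * (n ^ 2 * (n + 8)) := by ring
        _ ≤ n ^ 4 * (4 * (n ^ 4 + 2)) := Nat.mul_le_mul_left _ h5
        _ = 4 * (n ^ 8 + 2 * n ^ 4) := by ring
    have h4 : Q ^ 2 = n ^ 8 + 2 * n ^ 4 + 1 := by rw [hQ]; ring
    rw [h4]
    omega
  have hfinal : Q ^ M.card ≤ Q ^ (2 * (positions β T I J).card) := by
    refine hkey.trans ?_
    rw [pow_mul]
    exact Nat.pow_le_pow_left hEle _
  have hQ1 : 1 < Q := by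
    have : 0 < n ^ 4 := by positivity
    omega
  have h1 : M.card ≤ 2 * (positions β T I J).card := (Nat.pow_le_pow_iff_right hQ1).mp hfinal
  have h2 := card_positions_le β T I J hblock hI hTs hJ
  have h3 : N0.card ≤ M.card + T.card := by
    have h5 := Finset.le_card_sdiff T N0
    rw [← hM] at h5
    omega
  linarith

end Pool.Agent.Results.MP_0775d3_lc.SparseRoots
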